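import Pool.Agent.K4H78.TY.Main

/-!
# The codegree Turán density of every tight cycle `C^k_ℓ` with `k ∤ ℓ` is at least `1/4`

Let `3 ≤ k < ℓ` and let `ℓ` not be divisible by `k`. For every `n` there is a `k`-graph on `n`
vertices without a copy of the tight cycle `C^k_ℓ` in which every set of `k - 1` vertices has at
least `n / 4 - k` neighbours. So `γ(C^k_ℓ) ≥ 1/4`. The known general lower bound is `1/p` with the
smallest prime factor `p` of `k / gcd(k, ℓ)`, which tends to `0`. In all open cases (`k / gcd(k, ℓ)`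
odd, `ℓ` large) one has now `1/4 ≤ γ(C^k_ℓ) ≤ 1/3`, with the known upper bound.

The construction. Let `p` be a prime factor of `k / gcd(k, ℓ)`. The vertices are divided into four
equal classes, indexed by pairs of bits. For a set `e` of vertices let `A(e)` and `B(e)` be the
numbers of its vertices whose first, respectively second bit is one. The edges are the `k`-sets
with `(A(e), B(e)) ∈ F`, where `F` is a set of points of the plane such that

* every unit square has a corner in `F` (so every `(k - 1)`-set can be extended by all vertices of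
  one of the classes);
* there is a linear form `(x, y)` at each point of `F`, the same at neighbouring points (also
  diagonally neighbouring points), which is constant on connected pieces of `F` and whose value is
  not divisible by `p`.

Around a tight cycle the points `(A(e), B(e))` stay in one connected piece, so `x a + y b` has
period `k` and period `ℓ`, where `a` and `b` are the bits of the vertices of the cycle; so it has
period `gcd(k, ℓ)`, and its sums over `k` consecutive vertices are divisible by `k / gcd(k, ℓ)`, hence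
by `p`: a contradiction. For `p ≥ 7` the set `F` consists of the points with two odd coordinates,
except near the points with coordinates `≡ p` modulo `2p`, where it is changed in a square of
`11 × 11` points; for `p = 5` it has period ten.
-/

set_option autoImplicit false

namespace Pool.Agent.Results.MP_a572be_co.OneQuarter

open Filter Topology

/-- `H`, a set of `k`-sets of vertices, contains a copy of the tight cycle `C^k_ℓ`: distinct
vertices `v i`, `i` modulo `ℓ`, such that any `k` consecutive ones form an edge. -/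
def HasTightCycle (k ℓ : ℕ) {n : ℕ} (H : Finset (Finset (Fin n))) : Prop :=
  ∃ v : ZMod ℓ → Fin n, Function.Injective v ∧
    ∀ i : ZMod ℓ, (Finset.range k).image (fun j : ℕ => v (i + (j : ZMod ℓ))) ∈ H

/-- The number of the vertices `v ∉ S` for which `S ∪ {v}` is an edge. -/
def degree {n : ℕ} (H : Finset (Finset (Fin n))) (S : Finset (Fin n)) : ℕ :=
  (Finset.univ.filter (fun v : Fin n => v ∉ S ∧ insert v S ∈ H)).card

/-- `ex_{k-1}(n, C^k_ℓ)`: the largest minimum codegree of a `k`-graph on `n` vertices without a copy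
of the tight cycle. -/
noncomputable def exCodegree (k ℓ n : ℕ) : ℕ :=
  sSup {d | ∃ H : Finset (Finset (Fin n)), (∀ e ∈ H, e.card = k) ∧ ¬ HasTightCycle k ℓ H ∧
    IsLeast {c | ∃ S : Finset (Fin n), S.card = k - 1 ∧ degree H S = c} d}

theorem result : ∀ k ℓ : ℕ, 3 ≤ k → k + 1 ≤ ℓ → ¬ k ∣ ℓ →
    (∀ n : ℕ, ∃ H : Finset (Finset (Fin n)), (∀ e ∈ H, e.card = k) ∧ ¬ HasTightCycle k ℓ H ∧
      ∀ S : Finset (Fin n), S.card = k - 1 → (n : ℝ) / 4 - k ≤ degree H S) ∧
    (∀ n : ℕ, k - 1 ≤ n → (n : ℝ) / 4 - k ≤ exCodegree k ℓ n) ∧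
    (∀ γ : ℝ, Tendsto (fun n : ℕ => (exCodegree k ℓ n : ℝ) / n) atTop (𝓝 γ) → 1 / 4 ≤ γ) := by
  intro k ℓ hk hkl hdvd
  have h1 : ∀ n : ℕ, ∃ H : Finset (Finset (Fin n)), (∀ e ∈ H, e.card = k) ∧ ¬ HasTightCycle k ℓ H ∧
      ∀ S : Finset (Fin n), S.card = k - 1 → (n : ℝ) / 4 - k ≤ degree H S := by
    intro n
    obtain ⟨H, e1, e2, e3⟩ := Pool.Agent.K4H78.TY.exists_graph k ℓ hk hkl hdvd n
    refine ⟨H, e1, e2, fun S hS => ?_⟩
    have e4 := e3 S hS
    have e5 : n ≤ 4 * (degree H S + (k - 1)) + 3 := by
      unfold degree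
      omega
    have e6 : (n : ℝ) ≤ 4 * ((degree H S : ℝ) + ((k - 1 : ℕ) : ℝ)) + 3 := by exact_mod_cast e5
    rw [Nat.cast_sub (by omega)] at e6
    push_cast at e6
    linarith
  have h2 : ∀ n : ℕ, k - 1 ≤ n → (n : ℝ) / 4 - k ≤ exCodegree k ℓ n := by
    intro n hn
    obtain ⟨H, e1, e2, e3⟩ := h1 n
    set D : Set ℕ := {c | ∃ S : Finset (Fin n), S.card = k - 1 ∧ degree H S = c} with hD
    have hDne : D.Nonempty := by
      obtain ⟨S, hS⟩ := Finset.exists_subset_card_eq (s := (Finset.univ : Finset (Fin n)))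
        (n := k - 1) (by rw [Finset.card_univ, Fintype.card_fin]; exact hn)
      exact ⟨_, S, hS.2, rfl⟩
    have hleast : IsLeast D (sInf D) := ⟨Nat.sInf_mem hDne, fun c hc => Nat.sInf_le hc⟩
    obtain ⟨S, hS, hSd⟩ := hleast.1
    have e4 := e3 S hS
    rw [hSd] at e4
    refine e4.trans ?_
    have hbdd : BddAbove {d | ∃ H : Finset (Finset (Fin n)), (∀ e ∈ H, e.card = k) ∧
        ¬ HasTightCycle k ℓ H ∧
        IsLeast {c | ∃ S : Finset (Fin n), S.card = k - 1 ∧ degree H S = c} d} := by
      refine ⟨n, ?_⟩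
      rintro d ⟨H', -, -, hd⟩
      obtain ⟨S', -, hS'⟩ := hd.1
      rw [← hS']
      exact (Finset.card_le_univ _).trans (by rw [Fintype.card_fin])
    have e5 : sInf D ≤ exCodegree k ℓ n := le_csSup hbdd ⟨H, e1, e2, hleast⟩
    exact_mod_cast e5
  refine ⟨h1, h2, ?_⟩
  intro γ hγ
  have h3 : Tendsto (fun n : ℕ => (1 : ℝ) / 4 - (k : ℝ) / n) atTop (𝓝 (1 / 4 - 0)) :=
    tendsto_const_nhds.sub (tendsto_const_div_atTop_nhds_zero_nat (k : ℝ))
  rw [sub_zero] at h3
  refine le_of_tendsto_of_tendsto h3 hγ ?_
  filter_upwards [eventually_ge_atTop (k + 1)] with n hn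
  have hn0 : (0 : ℝ) < n := by
    have : 0 < n := by omega
    exact_mod_cast this
  have h4 := h2 n (by omega)
  rw [le_div_iff₀ hn0, sub_mul, div_mul_cancel₀ _ hn0.ne']
  linarith

end Pool.Agent.Results.MP_a572be_co.OneQuarter
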