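import Pool.Agent.K4H82.TC.Inst2

/-!
# The codegree Turán density of tight cycles `C^k_ℓ` with `gcd(k, ℓ) ≤ 3` is at least `1/3`

Let `3 ≤ k < ℓ`, let `ℓ` not be divisible by `k`, and let `gcd(k, ℓ) ≤ 3` (or let `3` divide
`k / gcd(k, ℓ)`, the known case). For every `n` there is a `k`-graph on `n` vertices without a copy
of the tight cycle `C^k_ℓ` in which every set of `k - 1` vertices has at least `n / 3 - k`
neighbours. So `γ(C^k_ℓ) ≥ 1/3`, and with the known upper bounds the conjecture is true for all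
these `k` and `ℓ` (`ℓ ≥ 20 k^2`). In particular it is true for all `k = 2 p` and `k = 3 p` with
`p` prime: if `k / gcd(k, ℓ)` is odd then `gcd(k, ℓ) ≤ 3` or `k / gcd(k, ℓ) = 3`.

The construction. Put `g = gcd(k, ℓ)`, `m = k / g`. The vertices are divided into three equal
classes. The type of a `k`-set is the triple `(x, y, z)` of the numbers of its vertices in the
classes. A set of types is chosen, and to each chosen type a label `0`, `1` or `2`, such that

* the coordinate of the type at its label is not divisible by `m`;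
* two chosen types which differ by moving one vertex to another class have the same label and the
  same coordinate there;
* every triple with sum `k - 1` becomes a chosen type by adding one to one of its coordinates.

The edges are the `k`-sets with a chosen type. The third condition gives the degrees. Around a tight
cycle the label is constant and the indicator function of this class has period `k` and period `ℓ`,
hence period `g`, so the coordinate at the label is divisible by `m`: a contradiction.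

For `3 ∣ m` the types with `x - y ≡ 1` modulo `3` are chosen. If `3 ∤ m` the types with `x ≡ y` (for
`g = 1, 2`) or `x - y ≡ m` (for `g = 3`) modulo `3` are chosen, with the exception of the types with
three coordinates divisible by `m`; these are one, two or three types, and near each of them one or
two further types are chosen (the cases of `S0`, `S1`, `S2` in `Pool.Agent.K4H82.TC`).
-/

set_option autoImplicit false

namespace Pool.Agent.Results.MP_a572be_co.OneThird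

open Filter Topology

/-- `H`, a set of `k`-sets of vertices, contains a copy of the tight cycle `C^k_ℓ`: distinct
vertices `v i`, `i` modulo `ℓ`, such that any `k` consecutive ones form an edge. -/
def HasTightCycle (k ℓ : ℕ) {n : ℕ} (H : Finset (Finset (Fin n))) : Prop :=
  ∃ v : ZMod ℓ → Fin n, Function.Injective v ∧
    ∀ i : ZMod ℓ, (Finset.range k).image (fun j : ℕ => v (i + (j : ZMod ℓ))) ∈ H

/-- The number of the vertices `v ∉ S` for which `S ∪ {v}` is an edge. -/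
def degree {n : ℕ} (H : Finset (Finset (Fin n))) (S : Finset (Fin n)) : ℕ :=
  (Finset.univ.filter (fun v : Fin n => v ∉ S ∧ insert v S ∈ H)).card

/-- `ex_{k-1}(n, C^k_ℓ)`: the largest minimum codegree of a `k`-graph on `n` vertices without a copy
of the tight cycle. -/
noncomputable def exCodegree (k ℓ n : ℕ) : ℕ :=
  sSup {d | ∃ H : Finset (Finset (Fin n)), (∀ e ∈ H, e.card = k) ∧ ¬ HasTightCycle k ℓ H ∧
    IsLeast {c | ∃ S : Finset (Fin n), S.card = k - 1 ∧ degree H S = c} d}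

theorem main : ∀ k ℓ : ℕ, 3 ≤ k → k + 1 ≤ ℓ → ¬ k ∣ ℓ →
    (Nat.gcd k ℓ ≤ 3 ∨ 3 ∣ k / Nat.gcd k ℓ) →
    (∀ n : ℕ, ∃ H : Finset (Finset (Fin n)), (∀ e ∈ H, e.card = k) ∧ ¬ HasTightCycle k ℓ H ∧
      ∀ S : Finset (Fin n), S.card = k - 1 → (n : ℝ) / 3 - k ≤ degree H S) ∧
    (∀ n : ℕ, k - 1 ≤ n → (n : ℝ) / 3 - k ≤ exCodegree k ℓ n) ∧
    (∀ γ : ℝ, Tendsto (fun n : ℕ => (exCodegree k ℓ n : ℝ) / n) atTop (𝓝 γ) → 1 / 3 ≤ γ) := by
  intro k ℓ hk hkl hdvd hg
  have hcert : Nonempty (Pool.Agent.K4H82.TC.Cert k (k / Nat.gcd k ℓ)) := by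
    have hgk : Nat.gcd k ℓ ∣ k := Nat.gcd_dvd_left k ℓ
    have hg1 : 1 ≤ Nat.gcd k ℓ := Nat.gcd_pos_of_pos_left ℓ (by omega)
    have hkm : k = Nat.gcd k ℓ * (k / Nat.gcd k ℓ) := (Nat.mul_div_cancel' hgk).symm
    have hm2 : 2 ≤ k / Nat.gcd k ℓ := by
      by_contra hcon
      have h0 : k / Nat.gcd k ℓ = 0 ∨ k / Nat.gcd k ℓ = 1 := by
        generalize k / Nat.gcd k ℓ = m at hcon
        omega
      rcases h0 with h0 | h0
      · rw [h0, mul_zero] at hkm
        omega
      · rw [h0, mul_one] at hkm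
        exact hdvd (hkm ▸ Nat.gcd_dvd_right k ℓ)
    rcases hg with hg | hg
    · exact Pool.Agent.K4H82.TC.exists_cert hkm hg1 hg hm2
    · exact ⟨Pool.Agent.K4H82.TC.certThree hg⟩
  obtain ⟨P⟩ := hcert
  have h1 : ∀ n : ℕ, ∃ H : Finset (Finset (Fin n)), (∀ e ∈ H, e.card = k) ∧ ¬ HasTightCycle k ℓ H ∧
      ∀ S : Finset (Fin n), S.card = k - 1 → (n : ℝ) / 3 - k ≤ degree H S := by
    intro n
    obtain ⟨H, e1, e2, e3⟩ := Pool.Agent.K4H82.TC.exists_graph k ℓ (by omega) hkl dvd_rfl P n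
    refine ⟨H, e1, e2, fun S hS => ?_⟩
    have e4 := e3 S hS
    have e5 : n ≤ 3 * (degree H S + (k - 1)) + 2 := by
      unfold degree
      omega
    have e6 : (n : ℝ) ≤ 3 * ((degree H S : ℝ) + ((k - 1 : ℕ) : ℝ)) + 2 := by exact_mod_cast e5
    rw [Nat.cast_sub (by omega)] at e6
    push_cast at e6
    linarith
  have h2 : ∀ n : ℕ, k - 1 ≤ n → (n : ℝ) / 3 - k ≤ exCodegree k ℓ n := by
    intro n hn
    obtain ⟨H, e1, e2, e3⟩ := h1 n
    set D : Set ℕ := {c | ∃ S : Finset (Fin n), S.card = k - 1 ∧ degree H S = c} with hD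
    have hDne : D.Nonempty := by
      obtain ⟨S, hS⟩ := Finset.exists_subset_card_eq (s := (Finset.univ : Finset (Fin n)))
        (n := k - 1) (by rw [Finset.card_univ, Fintype.card_fin]; exact hn)
      exact ⟨_, S, hS.2, rfl⟩
    have hleast : IsLeast D (sInf D) := ⟨Nat.sInf_mem hDne, fun c hc => Nat.sInf_le hc⟩
    obtain ⟨S, hS, hSd⟩ := hleast.1
    have e4 := e3 S hS
    rw [hSd] at e4
    refine e4.trans ?_
    have hbdd : BddAbove {d | ∃ H : Finset (Finset (Fin n)), (∀ e ∈ H, e.card = k) ∧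
        ¬ HasTightCycle k ℓ H ∧
        IsLeast {c | ∃ S : Finset (Fin n), S.card = k - 1 ∧ degree H S = c} d} := by
      refine ⟨n, ?_⟩
      rintro d ⟨H', -, -, hd⟩
      obtain ⟨S', -, hS'⟩ := hd.1
      rw [← hS']
      exact (Finset.card_le_univ _).trans (by rw [Fintype.card_fin])
    have e5 : sInf D ≤ exCodegree k ℓ n := le_csSup hbdd ⟨H, e1, e2, hleast⟩
    exact_mod_cast e5
  refine ⟨h1, h2, ?_⟩
  intro γ hγ
  have h3 : Tendsto (fun n : ℕ => (1 : ℝ) / 3 - (k : ℝ) / n) atTop (𝓝 (1 / 3 - 0)) :=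
    tendsto_const_nhds.sub (tendsto_const_div_atTop_nhds_zero_nat (k : ℝ))
  rw [sub_zero] at h3
  refine le_of_tendsto_of_tendsto h3 hγ ?_
  filter_upwards [eventually_ge_atTop (k + 1)] with n hn
  have hn0 : (0 : ℝ) < n := by
    have : 0 < n := by omega
    exact_mod_cast this
  have h4 := h2 n (by omega)
  rw [le_div_iff₀ hn0, sub_mul, div_mul_cancel₀ _ hn0.ne']
  linarith

lemma gcd_cases {p c k ℓ : ℕ} (hp : p.Prime) (hc : c = 1 ∨ c = 2 ∨ c = 3) (hk : k = c * p)
    (hdvd : ¬ k ∣ ℓ) (hodd : ¬ 2 ∣ k / Nat.gcd k ℓ) :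
    Nat.gcd k ℓ ≤ 3 ∨ 3 ∣ k / Nat.gcd k ℓ := by
  have hp0 : 0 < p := hp.pos
  have hgk : Nat.gcd k ℓ ∣ c * p := hk ▸ Nat.gcd_dvd_left k ℓ
  have hc0 : 0 < c := by omega
  by_cases hpg : p ∣ Nat.gcd k ℓ
  · right
    obtain ⟨g', hg'⟩ := hpg
    have h1 : g' ∣ c := by
      rw [hg', mul_comm c p] at hgk
      exact Nat.dvd_of_mul_dvd_mul_left hp0 hgk
    have h2 : g' ≠ c := by
      intro h
      apply hdvd
      have : Nat.gcd k ℓ = k := by rw [hg', h, hk, mul_comm]
      rw [← this]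
      exact Nat.gcd_dvd_right k ℓ
    have h3 : k / Nat.gcd k ℓ = c / g' := by
      rw [hg', hk, mul_comm c p]
      exact Nat.mul_div_mul_left _ _ hp0
    have h4 : g' ≤ c := Nat.le_of_dvd hc0 h1
    have h5 : g' ≠ 0 := by
      rintro rfl
      exact hc0.ne' (Nat.eq_zero_of_zero_dvd h1)
    rw [h3] at hodd ⊢
    rcases hc with rfl | rfl | rfl
    · omega
    · have : g' = 1 := by omega
      subst this
      exact absurd (by norm_num) hodd
    · have : g' = 1 ∨ g' = 2 := by omega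
      rcases this with rfl | rfl
      · norm_num
      · exact absurd h1 (by norm_num)
  · left
    have h1 : Nat.Coprime (Nat.gcd k ℓ) p :=
      ((Nat.Prime.coprime_iff_not_dvd hp).mpr hpg).symm
    have h2 := Nat.le_of_dvd hc0 (h1.dvd_of_dvd_mul_right hgk)
    omega

theorem result :
    (∀ k ℓ : ℕ, 3 ≤ k → k + 1 ≤ ℓ → ¬ k ∣ ℓ → (Nat.gcd k ℓ ≤ 3 ∨ 3 ∣ k / Nat.gcd k ℓ) →
      (∀ n : ℕ, ∃ H : Finset (Finset (Fin n)), (∀ e ∈ H, e.card = k) ∧ ¬ HasTightCycle k ℓ H ∧
        ∀ S : Finset (Fin n), S.card = k - 1 → (n : ℝ) / 3 - k ≤ degree H S) ∧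
      (∀ n : ℕ, k - 1 ≤ n → (n : ℝ) / 3 - k ≤ exCodegree k ℓ n) ∧
      (∀ γ : ℝ, Tendsto (fun n : ℕ => (exCodegree k ℓ n : ℝ) / n) atTop (𝓝 γ) → 1 / 3 ≤ γ)) ∧
    (∀ p k ℓ : ℕ, p.Prime → (k = p ∨ k = 2 * p ∨ k = 3 * p) → 3 ≤ k → k + 1 ≤ ℓ → ¬ k ∣ ℓ →
      ¬ 2 ∣ k / Nat.gcd k ℓ →
      (∀ n : ℕ, k - 1 ≤ n → (n : ℝ) / 3 - k ≤ exCodegree k ℓ n) ∧
      (∀ γ : ℝ, Tendsto (fun n : ℕ => (exCodegree k ℓ n : ℝ) / n) atTop (𝓝 γ) → 1 / 3 ≤ γ)) := by
  refine ⟨main, ?_⟩
  intro p k ℓ hp hk hk3 hkl hdvd hodd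
  have hg : Nat.gcd k ℓ ≤ 3 ∨ 3 ∣ k / Nat.gcd k ℓ := by
    rcases hk with hk | hk | hk
    · exact gcd_cases hp (Or.inl rfl) (by rw [hk, one_mul]) hdvd hodd
    · exact gcd_cases hp (Or.inr (Or.inl rfl)) hk hdvd hodd
    · exact gcd_cases hp (Or.inr (Or.inr rfl)) hk hdvd hodd
  exact (main k ℓ hk3 hkl hdvd hg).2

end Pool.Agent.Results.MP_a572be_co.OneThird
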